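import Pool.Agent.Y714.KF.Stm

set_option autoImplicit false
set_option linter.unusedSectionVars false

/-! The local condition at a prime depends on the residues (job KF-LR). -/

namespace Pool.Agent.Y804.KF

open Pool.Agent.Y714.KF
open NumberField FractionalIdeal Module Finset
open scoped nonZeroDivisors

section

variable {K : Type} [Field K] [NumberField K]

theorem mem_spI {I : FI K} {p : ℕ} {a : K} (ha : a ∈ I) : (p : K) * a ∈ sp (p : K) * I :=
  FractionalIdeal.mul_mem_mul (mem_spanSingleton_self _ _) ha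

theorem sp_add_le {I : FI K} {p : ℕ} {x y : K} (u : ℤ) {a : K} (ha : a ∈ I)
    (h : x = u * y + p * a) :
    sp (p : K) * I + sp x ≤ sp (p : K) * I + sp y := by
  rw [← sup_eq_add, ← sup_eq_add]
  refine sup_le le_sup_left (sp_le.2 ?_)
  rw [h]
  have h1 : sp y ≤ sp (p : K) * I ⊔ sp y := le_sup_right
  have h2 : sp (p : K) * I ≤ sp (p : K) * I ⊔ sp y := le_sup_left
  refine ((sp (p : K) * I ⊔ sp y : FI K) : Submodule (𝓞 K) K).add_mem ?_ ?_
  · exact intCast_mul_mem u (h1 (mem_spanSingleton_self _ _))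
  · exact h2 (mem_spI ha)

theorem sp_add_congr {I : FI K} {p : ℕ} {x y : K} {a : K} (ha : a ∈ I) (h : x = y + p * a) :
    sp (p : K) * I + sp x = sp (p : K) * I + sp y := by
  refine le_antisymm (sp_add_le 1 ha (by rw [h]; simp)) (sp_add_le 1 (a := -a) ?_ ?_)
  · exact (I : Submodule (𝓞 K) K).neg_mem ha
  · rw [h]; push_cast; ring

theorem spI_le_q {I : FI K} {p : ℕ} {q : Ideal (𝓞 K)} (hq : (p : 𝓞 K) ∈ q) :
    sp (p : K) * I ≤ (q : FI K) * I := by
  gcongr
  rw [sp_le]
  have := (FractionalIdeal.mem_coeIdeal_of_mem (𝓞 K)⁰ (P := K) hq)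
  simpa using this

/-- the good lifts -/
def Gd (p : ℕ) (I : FI K) (b : Basis (Fin (finrank ℚ K)) ℚ K)
    (z : Fin (finrank ℚ K) ⊕ Fin (finrank ℚ K) → ℤ) : Prop :=
  (∀ q : Ideal (𝓞 K), q.IsPrime → (p : 𝓞 K) ∈ q →
    ¬ ((pr b z).1 ∈ (q : FI K) * I ∧ (pr b z).2 ∈ (q : FI K) * I)) ∧
  (∀ i j : ℤ, ¬ ((p : ℤ) ∣ i ∧ (p : ℤ) ∣ j) → ∀ m ≤ finrank ℚ K, finrank ℚ K ≤ 2 * m →
    nm (sp (p : K) * I + sp ((i : K) * (pr b z).1 + j * (pr b z).2)) ≠ (p : ℚ) ^ m * nm I)

theorem el_congr {p : ℕ} (b : Basis (Fin (finrank ℚ K)) ℚ K) {z z' : Fin (finrank ℚ K) → ℤ}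
    (h : ∀ i, (z i : ZMod p) = (z' i : ZMod p)) : ∃ w : Fin (finrank ℚ K) → ℤ,
    el b z = el b z' + p * el b w := by
  have h1 : ∀ i, ∃ w : ℤ, z i = z' i + p * w := by
    intro i
    have h2 := (ZMod.intCast_eq_intCast_iff_dvd_sub (z' i) (z i) p).1 (h i).symm
    obtain ⟨w, hw⟩ := h2
    exact ⟨w, by linarith⟩
  choose w hw using h1
  refine ⟨w, ?_⟩
  have h2 : z = z' + (p : ℤ) • w := by
    funext i
    simp only [Pi.add_apply, Pi.smul_apply, smul_eq_mul]
    exact hw i
  rw [h2, el_add, el_smul]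
  push_cast
  ring

theorem Gd.congr {p : ℕ} {I : FI K} {b : Basis (Fin (finrank ℚ K)) ℚ K}
    (hb : ∀ x : K, x ∈ I ↔ ∃ z : Fin (finrank ℚ K) → ℤ, x = el b z)
    {z z' : Fin (finrank ℚ K) ⊕ Fin (finrank ℚ K) → ℤ}
    (h : ∀ i, (z i : ZMod p) = (z' i : ZMod p)) (hG : Gd p I b z) : Gd p I b z' := by
  obtain ⟨w1, hw1⟩ := el_congr b (fun i => (h (Sum.inl i)).symm)
  obtain ⟨w2, hw2⟩ := el_congr b (fun i => (h (Sum.inr i)).symm)
  have m1 : el b w1 ∈ I := (hb _).2 ⟨w1, rfl⟩
  have m2 : el b w2 ∈ I := (hb _).2 ⟨w2, rfl⟩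
  have e1 : (pr b z').1 = (pr b z).1 + p * el b w1 := hw1
  have e2 : (pr b z').2 = (pr b z).2 + p * el b w2 := hw2
  refine ⟨?_, ?_⟩
  · rintro q hq hpq ⟨h1, h2⟩
    have h3 := spI_le_q (I := I) hpq
    refine hG.1 q hq hpq ⟨?_, ?_⟩
    · have h4 := (((q : FI K) * I : FI K) : Submodule (𝓞 K) K).sub_mem h1 (h3 (mem_spI m1))
      rw [e1, add_sub_cancel_right] at h4
      exact h4
    · have h4 := (((q : FI K) * I : FI K) : Submodule (𝓞 K) K).sub_mem h2 (h3 (mem_spI m2))
      rw [e2, add_sub_cancel_right] at h4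
      exact h4
  · intro i j hij m hm hm'
    have h1 := hG.2 i j hij m hm hm'
    have h2 : (i : K) * el b w1 + (j : K) * el b w2 ∈ I :=
      (I : Submodule (𝓞 K) K).add_mem (intCast_mul_mem i m1) (intCast_mul_mem j m2)
    rw [sp_add_congr h2 (x := (i : K) * (pr b z').1 + j * (pr b z').2)
      (y := (i : K) * (pr b z).1 + j * (pr b z).2) (by rw [e1, e2]; ring)]
    exact h1

theorem loc_iff {p : ℕ} {I : FI K} {b : Basis (Fin (finrank ℚ K)) ℚ K}
    {z : Fin (finrank ℚ K) ⊕ Fin (finrank ℚ K) → ℤ} (hi : Ind (pr b z)) :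
    Loc p I (Lt (pr b z)) ↔ Gd p I b z := by
  have hdv : ∀ i j : ℤ, (∃ y ∈ Lt (pr b z), (i : K) * (pr b z).1 + j * (pr b z).2 = (p : K) * y) ↔
      ((p : ℤ) ∣ i ∧ (p : ℤ) ∣ j) := by
    intro i j
    constructor
    · rintro ⟨y, hy, hy'⟩
      obtain ⟨c, d, rfl⟩ := mem_Lt.1 hy
      have h1 := hi (i - p * c) (j - p * d) (by push_cast; linear_combination hy')
      refine ⟨⟨c, ?_⟩, ⟨d, ?_⟩⟩
      · have h2 := h1.1
        rw [sub_eq_zero] at h2
        exact_mod_cast h2
      · have h2 := h1.2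
        rw [sub_eq_zero] at h2
        exact_mod_cast h2
    · rintro ⟨⟨c, rfl⟩, ⟨d, rfl⟩⟩
      exact ⟨_, mem_Lt.2 ⟨c, d, rfl⟩, by push_cast; ring⟩
  unfold Loc Gd Cf Rf
  constructor
  · rintro ⟨h1, h2⟩
    refine ⟨?_, ?_⟩
    · rintro q hq hpq ⟨h3, h4⟩
      exact h1 ⟨q, hq, hpq, fun x hx => Lt_mem (ct_le.2 ⟨h3, h4⟩) hx⟩
    · intro i j hij m hm hm' he
      exact h2 m hm hm' ⟨_, mem_Lt.2 ⟨i, j, rfl⟩, fun h => hij ((hdv i j).1 h), he⟩
  · rintro ⟨h1, h2⟩
    refine ⟨?_, ?_⟩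
    · rintro ⟨q, hq, hpq, h3⟩
      exact h1 q hq hpq ⟨h3 _ (fst_mem_Lt _), h3 _ (snd_mem_Lt _)⟩
    · rintro m hm hm' ⟨x, hx, hx', he⟩
      obtain ⟨i, j, rfl⟩ := mem_Lt.1 hx
      exact h2 i j (fun h => hx' ((hdv i j).2 h)) m hm hm' he

/-- the residues of an ideal -/
def Rs (p : ℕ) (b : Basis (Fin (finrank ℚ K)) ℚ K) (J : FI K) : Set (Fin (finrank ℚ K) → ZMod p) :=
  {t | ∃ z : Fin (finrank ℚ K) → ℤ, (fun i => (z i : ZMod p)) = t ∧ el b z ∈ J}

/-- the linear forms -/
def lf (p : ℕ) (k : Option (ZMod p)) (t : Fin (finrank ℚ K) ⊕ Fin (finrank ℚ K) → ZMod p) :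
    Fin (finrank ℚ K) → ZMod p :=
  match k with
  | none => fun i => t (Sum.inr i)
  | some k => fun i => t (Sum.inl i) + k * t (Sum.inr i)

theorem ncard_lf {p : ℕ} [NeZero p] (k : Option (ZMod p)) (R : Set (Fin (finrank ℚ K) → ZMod p)) :
    {t : Fin (finrank ℚ K) ⊕ Fin (finrank ℚ K) → ZMod p | lf (K := K) p k t ∈ R}.ncard ≤
      p ^ finrank ℚ K * R.ncard := by
  classical
  have hc : (Set.univ : Set (Fin (finrank ℚ K) → ZMod p)).ncard = p ^ finrank ℚ K := by
    rw [Set.ncard_univ, Nat.card_eq_fintype_card, Fintype.card_fun, ZMod.card, Fintype.card_fin]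
  rw [← hc, ← Set.ncard_prod]
  cases k with
  | none =>
    refine Set.ncard_le_ncard_of_injOn (fun t => (fun i => t (Sum.inl i), fun i => t (Sum.inr i)))
      ?_ ?_ (Set.toFinite _)
    · intro t ht
      exact ⟨Set.mem_univ _, ht⟩
    · intro t _ t' _ h
      simp only [Prod.mk.injEq] at h
      funext i
      rcases i with i | i
      · exact congrFun h.1 i
      · exact congrFun h.2 i
  | some k =>
    refine Set.ncard_le_ncard_of_injOn (fun t => (fun i => t (Sum.inr i), lf (K := K) p (some k) t))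
      ?_ ?_ (Set.toFinite _)
    · intro t ht
      exact ⟨Set.mem_univ _, ht⟩
    · intro t _ t' _ h
      simp only [Prod.mk.injEq] at h
      funext i
      rcases i with i | i
      · have h1 := congrFun h.1 i
        have h2 := congrFun h.2 i
        simp only [lf] at h1 h2
        rw [h1] at h2
        exact add_right_cancel h2
      · exact congrFun h.1 i

theorem ncard_two {p : ℕ} [NeZero p] (R : Set (Fin (finrank ℚ K) → ZMod p)) :
    {t : Fin (finrank ℚ K) ⊕ Fin (finrank ℚ K) → ZMod p | (fun i => t (Sum.inl i)) ∈ R ∧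
      (fun i => t (Sum.inr i)) ∈ R}.ncard ≤ R.ncard * R.ncard := by
  classical
  rw [← Set.ncard_prod]
  refine Set.ncard_le_ncard_of_injOn (fun t => (fun i => t (Sum.inl i), fun i => t (Sum.inr i)))
      ?_ ?_ (Set.toFinite _)
  · intro t ht
    exact ⟨ht.1, ht.2⟩
  · intro t _ t' _ h
    simp only [Prod.mk.injEq] at h
    funext i
    rcases i with i | i
    · exact congrFun h.1 i
    · exact congrFun h.2 i

theorem spI_le {I : FI K} (p : ℕ) : sp (p : K) * I ≤ I := by
  calc sp (p : K) * I ≤ 1 * I := by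
        gcongr
        exact sp_natCast_le_one p
    _ = I := one_mul I

theorem exists_coef {p : ℕ} (hp : p.Prime) {i j : ℤ} (hij : ¬ ((p : ℤ) ∣ i ∧ (p : ℤ) ∣ j))
    {I J : FI K} {b : Basis (Fin (finrank ℚ K)) ℚ K}
    (hb : ∀ x : K, x ∈ I ↔ ∃ z : Fin (finrank ℚ K) → ℤ, x = el b z)
    (hJ : sp (p : K) * I ≤ J) (z : Fin (finrank ℚ K) ⊕ Fin (finrank ℚ K) → ℤ)
    (hx : (i : K) * (pr b z).1 + j * (pr b z).2 ∈ J) :
    ∃ k : Option (ZMod p), lf (K := K) p k (fun i => (z i : ZMod p)) ∈ Rs p b J := by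
  have hpi : Prime (p : ℤ) := Nat.prime_iff_prime_int.1 hp
  have hcop : ∀ a : ℤ, ¬ (p : ℤ) ∣ a → ∃ v w : ℤ, v * a + w * p = 1 := by
    intro a ha
    obtain ⟨u, v, huv⟩ := hpi.irreducible.coprime_iff_not_dvd.2 ha
    exact ⟨v, u, by linarith⟩
  have m1 : (pr b z).1 ∈ I := (hb _).2 ⟨_, rfl⟩
  have m2 : (pr b z).2 ∈ I := (hb _).2 ⟨_, rfl⟩
  by_cases hi : (p : ℤ) ∣ i
  · have hj : ¬ (p : ℤ) ∣ j := fun h => hij ⟨hi, h⟩
    obtain ⟨i', rfl⟩ := hi
    obtain ⟨v, w, hvw⟩ := hcop j hj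
    refine ⟨none, fun l => z (Sum.inr l), rfl, ?_⟩
    have h1 : (v : K) * j + w * p = 1 := by exact_mod_cast hvw
    have h2 : (w : K) * (pr b z).2 + ((-(v * i') : ℤ) : K) * (pr b z).1 ∈ I :=
      (I : Submodule (𝓞 K) K).add_mem (intCast_mul_mem w m2) (intCast_mul_mem _ m1)
    have h3 := (J : Submodule (𝓞 K) K).add_mem (intCast_mul_mem v hx) (hJ (mem_spI h2))
    have h4 : el b (fun l => z (Sum.inr l)) = (v : K) * (((p * i' : ℤ) : K) * (pr b z).1 +
        j * (pr b z).2) + p * ((w : K) * (pr b z).2 + ((-(v * i') : ℤ) : K) * (pr b z).1) := by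
      change (pr b z).2 = _
      push_cast
      linear_combination (-(pr b z).2) * h1
    rw [h4]
    exact h3
  · obtain ⟨v, w, hvw⟩ := hcop i hi
    refine ⟨some ((v * j : ℤ) : ZMod p), (fun l => z (Sum.inl l)) + (v * j) • (fun l => z (Sum.inr l)),
      ?_, ?_⟩
    · funext l
      simp only [lf, Pi.add_apply, Pi.smul_apply, smul_eq_mul]
      push_cast
      ring
    · have h1 : (v : K) * i + w * p = 1 := by exact_mod_cast hvw
      have h3 := (J : Submodule (𝓞 K) K).add_mem (intCast_mul_mem v hx)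
        (hJ (mem_spI (intCast_mul_mem w m1)))
      rw [el_add, el_smul]
      have h4 : el b (fun l => z (Sum.inl l)) + ((v * j : ℤ) : K) * el b (fun l => z (Sum.inr l)) =
          (v : K) * ((i : K) * (pr b z).1 + j * (pr b z).2) + p * ((w : K) * (pr b z).1) := by
        change (pr b z).1 + ((v * j : ℤ) : K) * (pr b z).2 = _
        push_cast
        linear_combination (-(pr b z).1) * h1
      rw [h4]
      exact h3

theorem lr (h1 : S_DIV K) (h2 : S_CNT K) : S_LR K := by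
  classical
  intro _ hn I b hb
  refine ⟨2 ^ (finrank ℚ K + 2), by positivity, ?_⟩
  intro p hp
  haveI : NeZero p := ⟨hp.ne_zero⟩
  have hI : (I : FI K) ≠ 0 := I.ne_zero
  have hIp : 0 < nm (I : FI K) := nm_pos hI
  have hp1 : (1 : ℚ) < p := by exact_mod_cast hp.one_lt
  refine ⟨{t | ∃ z : Fin (finrank ℚ K) ⊕ Fin (finrank ℚ K) → ℤ, (fun i => (z i : ZMod p)) = t ∧
    Gd p (I : FI K) b z}, ?_, ?_⟩
  · intro z hz
    rw [loc_iff hz]
    constructor
    · intro h
      exact ⟨z, rfl, h⟩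
    · rintro ⟨z', hz', h'⟩
      exact h'.congr hb (fun i => congrFun hz' i)
  · set F : Finset (FI K) := (h1 p hp I).1.toFinset with hF
    have hFm : ∀ J, J ∈ F ↔ sp (p : K) * (I : FI K) ≤ J ∧ J ≤ I := by
      intro J
      rw [hF, Set.Finite.mem_toFinset]
      rfl
    have hFc : F.card ≤ 2 ^ finrank ℚ K := by
      have := (h1 p hp I).2
      rwa [Set.ncard_eq_toFinset_card _ (h1 p hp I).1] at this
    set A : FI K → Set (Fin (finrank ℚ K) ⊕ Fin (finrank ℚ K) → ZMod p) := fun J =>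
      {t | (p : ℚ) * nm (I : FI K) ≤ nm J ∧ (fun i => t (Sum.inl i)) ∈ Rs p b J ∧
        (fun i => t (Sum.inr i)) ∈ Rs p b J} with hA
    set B : FI K → Option (ZMod p) → Set (Fin (finrank ℚ K) ⊕ Fin (finrank ℚ K) → ZMod p) :=
      fun J k => {t | (p : ℚ) ^ 3 * nm (I : FI K) ≤ nm J ∧ lf (K := K) p k t ∈ Rs p b J} with hB
    have hRs : ∀ J ∈ F, ∀ e : ℕ, e ≤ finrank ℚ K → (p : ℚ) ^ e * nm (I : FI K) ≤ nm J →
        (Rs p b J).ncard ≤ p ^ (finrank ℚ K - e) := by
      intro J hJ e he hle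
      obtain ⟨g1, g2⟩ := (hFm J).1 hJ
      obtain ⟨m, hm, hmJ⟩ := exists_pow hp hI g1 g2
      have g3 := h2 p hp I b hb J m g1 g2 hmJ
      have g4 : e ≤ m := by
        rw [hmJ] at hle
        have g5 := le_of_mul_le_mul_right hle hIp
        exact (pow_le_pow_iff_right₀ hp1).1 g5
      have g6 : (Rs p b J).ncard * p ^ e ≤ p ^ (finrank ℚ K - e) * p ^ e := by
        rw [← pow_add, Nat.sub_add_cancel he, ← g3]
        exact Nat.mul_le_mul_left _ (Nat.pow_le_pow_right hp.pos g4)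
      exact Nat.le_of_mul_le_mul_right g6 (pow_pos hp.pos _)
    have hAc : ∀ J ∈ F, (A J).ncard ≤ p ^ (2 * finrank ℚ K - 2) := by
      intro J hJ
      by_cases hc : (p : ℚ) * nm (I : FI K) ≤ nm J
      · have g1 := hRs J hJ 1 (by omega) (by rwa [pow_one])
        calc (A J).ncard ≤ (Rs p b J).ncard * (Rs p b J).ncard := by
              refine le_trans (Set.ncard_le_ncard ?_ (Set.toFinite _)) (ncard_two (K := K) (Rs p b J))
              intro t ht
              exact ht.2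
          _ ≤ p ^ (finrank ℚ K - 1) * p ^ (finrank ℚ K - 1) := Nat.mul_le_mul g1 g1
          _ = p ^ (2 * finrank ℚ K - 2) := by
              rw [← pow_add]
              congr 1
              omega
      · have g1 : A J = ∅ := by
          ext t
          simp only [hA, Set.mem_setOf_eq, Set.mem_empty_iff_false, iff_false]
          exact fun h => hc h.1
        rw [g1, Set.ncard_empty]
        exact Nat.zero_le _
    have hBc : ∀ J ∈ F, ∀ k, (B J k).ncard ≤ p ^ (2 * finrank ℚ K - 3) := by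
      intro J hJ k
      by_cases hc : (p : ℚ) ^ 3 * nm (I : FI K) ≤ nm J
      · have g1 := hRs J hJ 3 (by omega) hc
        calc (B J k).ncard ≤ p ^ finrank ℚ K * (Rs p b J).ncard := by
              refine le_trans (Set.ncard_le_ncard ?_ (Set.toFinite _))
                (ncard_lf (K := K) k (Rs p b J))
              intro t ht
              exact ht.2
          _ ≤ p ^ finrank ℚ K * p ^ (finrank ℚ K - 3) := Nat.mul_le_mul_left _ g1
          _ = p ^ (2 * finrank ℚ K - 3) := by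
              rw [← pow_add]
              congr 1
              omega
      · have g1 : B J k = ∅ := by
          ext t
          simp only [hB, Set.mem_setOf_eq, Set.mem_empty_iff_false, iff_false]
          exact fun h => hc h.1
        rw [g1, Set.ncard_empty]
        exact Nat.zero_le _
    have hcov : {t | ∃ z : Fin (finrank ℚ K) ⊕ Fin (finrank ℚ K) → ℤ,
        (fun i => (z i : ZMod p)) = t ∧ Gd p (I : FI K) b z}ᶜ ⊆
        ⋃ J ∈ F, (A J ∪ ⋃ k ∈ (Finset.univ : Finset (Option (ZMod p))), B J k) := by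
      intro t ht
      obtain ⟨z, rfl⟩ : ∃ z : Fin (finrank ℚ K) ⊕ Fin (finrank ℚ K) → ℤ,
          (fun i => (z i : ZMod p)) = t := by
        choose z hz using fun i => ZMod.intCast_surjective (t i)
        exact ⟨z, funext hz⟩
      have hz : ¬ Gd p (I : FI K) b z := fun h => ht ⟨z, rfl, h⟩
      have m1 : (pr b z).1 ∈ (I : FI K) := (hb _).2 ⟨_, rfl⟩
      have m2 : (pr b z).2 ∈ (I : FI K) := (hb _).2 ⟨_, rfl⟩
      simp only [Set.mem_iUnion, Set.mem_union, exists_prop]
      rw [Gd, not_and_or] at hz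
      rcases hz with hz | hz
      · push Not at hz
        obtain ⟨q, hq, hpq, g1, g2⟩ := hz
        have g3 : (q : FI K) * (I : FI K) ≤ I := by
          calc (q : FI K) * (I : FI K) ≤ 1 * I := by
                gcongr
                exact coeIdeal_le_one
            _ = I := one_mul _
        refine ⟨(q : FI K) * I, (hFm _).2 ⟨spI_le_q hpq, g3⟩, Or.inl ⟨?_, ⟨_, rfl, g1⟩, ⟨_, rfl, g2⟩⟩⟩
        obtain ⟨m, hm, hmJ⟩ := exists_pow hp hI (spI_le_q (I := (I : FI K)) hpq) g3
        have g4 : m ≠ 0 := by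
          rintro rfl
          rw [pow_zero, one_mul, nm, map_mul] at hmJ
          have g5 : absNorm (q : FI K) = 1 := by
            have g6 : (absNorm (q : FI K) - 1) * nm (I : FI K) = 0 := by
              rw [sub_mul, one_mul, hmJ, sub_self]
            rcases mul_eq_zero.1 g6 with g7 | g7
            · linarith
            · exact absurd g7 hIp.ne'
          rw [coeIdeal_absNorm] at g5
          have g6 : Ideal.absNorm q = 1 := by exact_mod_cast g5
          exact hq.ne_top (Ideal.absNorm_eq_one_iff.1 g6)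
        rw [hmJ]
        refine mul_le_mul_of_nonneg_right ?_ hIp.le
        calc (p : ℚ) = (p : ℚ) ^ 1 := (pow_one _).symm
          _ ≤ (p : ℚ) ^ m := pow_le_pow_right₀ hp1.le (Nat.one_le_iff_ne_zero.2 g4)
      · push Not at hz
        obtain ⟨i, j, hij, m, hm, hm', he⟩ := hz
        have hij' : ¬ ((p : ℤ) ∣ i ∧ (p : ℤ) ∣ j) := fun h => hij h.1 h.2
        have hx : (i : K) * (pr b z).1 + j * (pr b z).2 ∈ (I : FI K) :=
          ((I : FI K) : Submodule (𝓞 K) K).add_mem (intCast_mul_mem i m1) (intCast_mul_mem j m2)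
        set J : FI K := sp (p : K) * (I : FI K) + sp ((i : K) * (pr b z).1 + j * (pr b z).2) with hJ
        have g1 : sp (p : K) * (I : FI K) ≤ J := by
          rw [hJ, ← sup_eq_add]
          exact le_sup_left
        have g2 : J ≤ I := by
          rw [hJ, ← sup_eq_add]
          exact sup_le (spI_le p) (sp_le.2 hx)
        have g3 : (i : K) * (pr b z).1 + j * (pr b z).2 ∈ J := by
          rw [← sp_le, hJ, ← sup_eq_add]
          exact le_sup_right
        obtain ⟨k, hk⟩ := exists_coef hp hij' hb g1 z g3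
        refine ⟨J, (hFm _).2 ⟨g1, g2⟩, Or.inr ⟨k, Finset.mem_univ _, ?_, hk⟩⟩
        rw [he]
        refine mul_le_mul_of_nonneg_right ?_ hIp.le
        exact pow_le_pow_right₀ hp1.le (by omega)
    have hpow : p ^ (2 * finrank ℚ K - 2) = p * p ^ (2 * finrank ℚ K - 3) := by
      rw [← pow_succ']
      congr 1
      omega
    have hcard : ({t | ∃ z : Fin (finrank ℚ K) ⊕ Fin (finrank ℚ K) → ℤ,
        (fun i => (z i : ZMod p)) = t ∧ Gd p (I : FI K) b z}ᶜ).ncard ≤
        2 ^ (finrank ℚ K + 2) * p ^ (2 * finrank ℚ K - 2) := by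
      calc _ ≤ (⋃ J ∈ F, (A J ∪ ⋃ k ∈ (Finset.univ : Finset (Option (ZMod p))), B J k)).ncard :=
            Set.ncard_le_ncard hcov (Set.toFinite _)
        _ ≤ ∑ J ∈ F, (A J ∪ ⋃ k ∈ (Finset.univ : Finset (Option (ZMod p))), B J k).ncard :=
            Finset.set_ncard_biUnion_le _ _
        _ ≤ ∑ J ∈ F, (4 * p ^ (2 * finrank ℚ K - 2)) := by
            refine Finset.sum_le_sum fun J hJ => ?_
            calc _ ≤ (A J).ncard + (⋃ k ∈ (Finset.univ : Finset (Option (ZMod p))), B J k).ncard :=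
                  Set.ncard_union_le _ _
              _ ≤ p ^ (2 * finrank ℚ K - 2) +
                  ∑ k ∈ (Finset.univ : Finset (Option (ZMod p))), (B J k).ncard :=
                  Nat.add_le_add (hAc J hJ) (Finset.set_ncard_biUnion_le _ _)
              _ ≤ p ^ (2 * finrank ℚ K - 2) +
                  ∑ k ∈ (Finset.univ : Finset (Option (ZMod p))), p ^ (2 * finrank ℚ K - 3) :=
                  Nat.add_le_add_left (Finset.sum_le_sum fun k _ => hBc J hJ k) _
              _ = p ^ (2 * finrank ℚ K - 2) + (p + 1) * p ^ (2 * finrank ℚ K - 3) := by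
                  rw [Finset.sum_const, Finset.card_univ, Fintype.card_option, ZMod.card,
                    smul_eq_mul]
              _ ≤ 4 * p ^ (2 * finrank ℚ K - 2) := by
                  rw [hpow]
                  have h5 := hp.one_lt
                  have h6 : 0 < p ^ (2 * finrank ℚ K - 3) := pow_pos hp.pos _
                  nlinarith
        _ = F.card * (4 * p ^ (2 * finrank ℚ K - 2)) := by rw [Finset.sum_const, smul_eq_mul]
        _ ≤ 2 ^ finrank ℚ K * (4 * p ^ (2 * finrank ℚ K - 2)) := Nat.mul_le_mul_right _ hFc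
        _ = 2 ^ (finrank ℚ K + 2) * p ^ (2 * finrank ℚ K - 2) := by
            rw [pow_add]
            ring
    exact_mod_cast hcard

end

end Pool.Agent.Y804.KF
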